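import Mathlib
import Pool.Agent.BInc.Defs
import Pool.Agent.BInc.Basic
import Pool.Agent.BInc.Semilat
import Pool.Agent.BInc.Brandt
import Pool.Agent.BInc.Simple
set_option autoImplicit false

/-!
# Varieties whose finitely generated free semigroups are separated by identical inclusions

`Γ` is a set of identities defining the variety `V`, `Fr Γ n = F_n(V)`.

0. `Fr Γ n` is the free semigroup of rank `n` in `V` (sanity check of the definition).
1. periodic `V` containing the semilattices but not the Brandt semigroup `B_2`: separated.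
2. locally finite `V` not containing the semilattices but containing a nontrivial group: separated.
3. varieties of bands: separated iff `V` contains the semilattices.
4. `V` satisfying `x ^ (k + 1) = x` and containing the semilattices: separated.
5. locally finite `V` satisfying `x ^ (k + 1) = x`: separated iff `V` does not consist of
   rectangular bands.
-/

namespace Pool.Agent.Results.MP_b02441_al.PeriodicVarieties

open Pool.Agent.BInc

theorem result :
    (∀ (Γ : Set (Word × Word)) (n : ℕ), InVar Γ (Fr Γ n) ∧ ∃ g : Fin n → Fr Γ n,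
      ∀ (S : Type) [Semigroup S], InVar Γ S → ∀ f : Fin n → S,
        ∃! θ : Fr Γ n →ₙ* S, ∀ i, θ (g i) = f i) ∧
    (∀ Γ : Set (Word × Word), Periodic Γ → HasSemilattices Γ → ¬ InVar Γ B2 → Separated Γ) ∧
    (∀ Γ : Set (Word × Word), (∀ n, Finite (Fr Γ n)) → ¬ HasSemilattices Γ → HasGroup Γ →
      Separated Γ) ∧
    (∀ Γ : Set (Word × Word), PowLaw Γ 1 → (Separated Γ ↔ HasSemilattices Γ)) ∧
    (∀ (Γ : Set (Word × Word)) (k : ℕ), 1 ≤ k → PowLaw Γ k → HasSemilattices Γ →
      Separated Γ) ∧
    (∀ (Γ : Set (Word × Word)) (k : ℕ), 1 ≤ k → PowLaw Γ k → (∀ n, Finite (Fr Γ n)) →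
      (Separated Γ ↔ ¬ IsRect Γ)) := by
  refine ⟨fun Γ n => ⟨fr_inVar, gen Γ n, fun S _ hS f => ?_⟩, fun Γ => main_no_b2,
    fun Γ => main_group, fun Γ => main_bands, fun Γ k => main_cr, fun Γ k => main_lf⟩
  obtain ⟨θ, hθ⟩ := fr_lift hS f
  refine ⟨θ, hθ, fun θ' hθ' => ?_⟩
  exact MulHom.ext fun w => fr_hom_ext (fun i => by rw [hθ' i, hθ i]) w

end Pool.Agent.Results.MP_b02441_al.PeriodicVarieties
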